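import Mathlib

/-!
# Power structure of strongly embedded normal subgroups

`Z p e R` is the subgroup generated by the `p ^ e`-th powers of the elements of `R`. `P` is a normal
subgroup of a finite `p`-group `G` with `[R, P] ≤ Z p j R` for all normal subgroups `R ≤ P` of `G`,
`j ≥ 2`. Then the normal subgroups of `G` contained in `P` behave like abelian groups with respect
to `p`-th powers.
-/

set_option autoImplicit false
set_option linter.unusedSectionVars false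
set_option linter.unusedVariables false

namespace Pool.Agent.Helper60.RK

section defs
variable {G : Type*} [Group G]

/-- the subgroup generated by the `p ^ e`-th powers -/
def Z (p e : ℕ) (R : Subgroup G) : Subgroup G := Subgroup.closure {g | ∃ r ∈ R, g = r ^ p ^ e}

theorem pow_mem_Z {p e : ℕ} {R : Subgroup G} {r : G} (hr : r ∈ R) : r ^ p ^ e ∈ Z p e R :=
  Subgroup.subset_closure ⟨r, hr, rfl⟩

theorem Z_zero (p : ℕ) (R : Subgroup G) : Z p 0 R = R := by
  apply le_antisymm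
  · rw [Z, Subgroup.closure_le]
    rintro _ ⟨r, hr, rfl⟩
    simpa using hr
  · intro r hr
    have := pow_mem_Z (p := p) (e := 0) hr
    simpa using this

theorem Z_mono {p e : ℕ} {R S : Subgroup G} (h : R ≤ S) : Z p e R ≤ Z p e S := by
  apply Subgroup.closure_mono
  rintro _ ⟨r, hr, rfl⟩
  exact ⟨r, h hr, rfl⟩

theorem Z_le (p e : ℕ) (R : Subgroup G) : Z p e R ≤ R := by
  rw [Z, Subgroup.closure_le]
  rintro _ ⟨r, hr, rfl⟩
  exact Subgroup.pow_mem _ hr _

theorem Z_add_le (p a b : ℕ) (R : Subgroup G) : Z p (a + b) R ≤ Z p a (Z p b R) := by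
  rw [Z, Subgroup.closure_le]
  rintro _ ⟨r, hr, rfl⟩
  rw [add_comm, pow_add, pow_mul]
  exact pow_mem_Z (pow_mem_Z hr)

theorem Z_anti {p a b : ℕ} (h : a ≤ b) (R : Subgroup G) : Z p b R ≤ Z p a R := by
  obtain ⟨c, rfl⟩ := Nat.exists_eq_add_of_le h
  exact (Z_add_le p a c R).trans (Z_mono (Z_le _ _ _))

instance Z_normal (p e : ℕ) (R : Subgroup G) [hR : R.Normal] : (Z p e R).Normal := by
  refine ⟨fun x hx g => ?_⟩
  have h1 : Z p e R ≤ (Z p e R).comap (MulAut.conj g).toMonoidHom := by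
    conv_lhs => rw [Z]
    rw [Subgroup.closure_le]
    rintro _ ⟨r, hr, rfl⟩
    change (MulAut.conj g) (r ^ p ^ e) ∈ Z p e R
    rw [map_pow]
    exact pow_mem_Z (hR.conj_mem r hr g)
  exact h1 hx

theorem Z_bot (p e : ℕ) : Z p e (⊥ : Subgroup G) = ⊥ := le_bot_iff.mp (Z_le _ _ _)

end defs

section frattini
variable {p : ℕ} [hp : Fact p.Prime] {G : Type*} [Group G] [Finite G]

theorem frattini_top (hG : IsPGroup p G) (K : Subgroup G) (h : (⊤ : Subgroup G) ≤ K ⊔ Z p 1 ⊤) :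
    K = ⊤ := by
  by_contra hne
  obtain ⟨n, hn⟩ := hG.exists_card_eq
  obtain ⟨a, ha⟩ := (hG.to_subgroup K).exists_card_eq
  have han : a < n := by
    have h1 : Nat.card K < Nat.card G := by
      refine lt_of_le_of_ne (Subgroup.card_le_card_group K) fun h2 => hne ?_
      exact Subgroup.eq_top_of_card_eq K h2
    rw [ha, hn] at h1
    exact (Nat.pow_lt_pow_iff_right hp.out.one_lt).mp h1
  obtain ⟨L, hL, hKL⟩ := Sylow.exists_subgroup_card_pow_prime_le p (n := a) (m := n - 1)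
    (by rw [hn]; exact pow_dvd_pow p (by omega)) K ha (by omega)
  have hidx : L.index = p := by
    have h1 := L.card_mul_index
    rw [hL, hn] at h1
    have h2 : p ^ n = p ^ (n - 1) * p := by rw [← pow_succ]; congr 1; omega
    rw [h2] at h1
    exact Nat.eq_of_mul_eq_mul_left (pow_pos hp.out.pos _) h1
  have hmin : L.index = (Nat.card G).minFac := by
    rw [hidx, hn, hp.out.pow_minFac (by omega)]
  have hLn : L.Normal := Subgroup.normal_of_index_eq_minFac_card hmin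
  have h1 : Z p 1 (⊤ : Subgroup G) ≤ L := by
    rw [Z, Subgroup.closure_le]
    rintro _ ⟨r, -, rfl⟩
    rw [pow_one, SetLike.mem_coe, ← hidx]
    exact Subgroup.pow_index_mem L r
  have h2 : L = ⊤ := top_le_iff.mp (h.trans (sup_le hKL h1))
  rw [h2, Subgroup.index_top] at hidx
  exact hp.out.one_lt.ne hidx

/-- the Frattini argument -/
theorem frattini (hG : IsPGroup p G) {K M : Subgroup G} (hKM : K ≤ M) (h : M ≤ K ⊔ Z p 1 M) :
    M ≤ K := by
  have h1 : K.subgroupOf M = ⊤ := by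
    refine frattini_top (hG.to_subgroup M) _ ?_
    intro x _
    have hx := h x.2
    have h2 : K ⊔ Z p 1 M ≤ (K.subgroupOf M ⊔ Z p 1 (⊤ : Subgroup M)).map M.subtype := by
      rw [Subgroup.map_sup]
      refine sup_le_sup ?_ ?_
      · rw [Subgroup.map_subgroupOf_eq_of_le hKM]
      · rw [Z, Subgroup.closure_le]
        rintro _ ⟨r, hr, rfl⟩
        exact ⟨(⟨r, hr⟩ : M) ^ p ^ 1, pow_mem_Z trivial, by simp⟩
    obtain ⟨y, hy, hyx⟩ := h2 hx
    have : y = x := Subtype.ext hyx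
    rwa [this] at hy
  rwa [Subgroup.subgroupOf_eq_top] at h1

/-- a subgroup generated by its `p`-th powers is trivial -/
theorem eq_bot_of_Z (hG : IsPGroup p G) {M : Subgroup G} (h : M ≤ Z p 1 M) : M = ⊥ := by
  have := frattini hG (K := ⊥) (M := M) bot_le (by rwa [bot_sup_eq])
  exact le_bot_iff.mp this

end frattini

section main
variable {p : ℕ} [hp : Fact p.Prime] {G : Type*} [Group G] [Finite G]

/-- `P` is strongly embedded: `[R, P] ≤ R ^ (p ^ j)` for all normal `R ≤ P`, `j ≥ 2`. -/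
structure Emb (p : ℕ) {G : Type*} [Group G] (P : Subgroup G) (j : ℕ) : Prop where
  normal : P.Normal
  two_le : 2 ≤ j
  comm : ∀ R : Subgroup G, R.Normal → R ≤ P → ⁅R, P⁆ ≤ Z p j R

variable {P : Subgroup G} {j : ℕ}

theorem Emb.comm' (hE : Emb p P j) {R : Subgroup G} (hR : R.Normal) (hRP : R ≤ P) {r x : G}
    (hr : r ∈ R) (hx : x ∈ P) : r * x * r⁻¹ * x⁻¹ ∈ Z p j R := by
  rw [← commutatorElement_def]
  exact hE.comm R hR hRP (Subgroup.commutator_mem_commutator hr hx)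

/-- `p`-th powers: generators -/
theorem Emb.Z_one (hG : IsPGroup p G) (hE : Emb p P j) {R : Subgroup G} (hR : R.Normal)
    (hRP : R ≤ P) {S : Set G} (hS : Subgroup.closure S = R)
    (hSG : ∀ s ∈ S, ∀ g : G, g * s * g⁻¹ ∈ S) :
    Z p 1 R = Subgroup.closure {g | ∃ s ∈ S, g = s ^ p} := by
  set M := Z p 1 R with hM
  set K := Subgroup.closure {g | ∃ s ∈ S, g = s ^ p} with hK
  have hSR : S ⊆ R := by rw [← hS]; exact Subgroup.subset_closure
  have hKM : K ≤ M := by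
    rw [hK, Subgroup.closure_le]
    rintro _ ⟨s, hs, rfl⟩
    have := pow_mem_Z (p := p) (e := 1) (hSR hs)
    rwa [pow_one] at this
  refine le_antisymm (frattini hG hKM ?_) hKM
  set T := Z p 1 M with hT
  have hMn : M.Normal := Z_normal p 1 R
  have hTn : T.Normal := Z_normal p 1 M
  have hRT : Z p j R ≤ T := by
    refine (Z_anti hE.two_le R).trans ?_
    exact Z_add_le p 1 1 R
  have hcomm : ∀ a ∈ R, ∀ b ∈ R, (a : G ⧸ T) * b = b * a := by
    intro a ha b hb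
    have h1 := hRT (hE.comm' hR hRP ha (hRP hb))
    rw [← QuotientGroup.mk_mul, ← QuotientGroup.mk_mul, eq_comm, QuotientGroup.eq]
    have h2 : (b * a)⁻¹ * (a * b) = (b * a)⁻¹ * (a * b * a⁻¹ * b⁻¹) * (b * a) := by group
    rw [h2]
    have := hTn.conj_mem _ h1 (b * a)⁻¹
    simpa using this
  have key : ∀ r ∈ R, r ^ p ∈ K ⊔ T := by
    intro r hr
    rw [← hS] at hr
    induction hr using Subgroup.closure_induction with
    | mem x hx => exact Subgroup.mem_sup_left (Subgroup.subset_closure ⟨x, hx, rfl⟩)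
    | one => rw [one_pow]; exact Subgroup.one_mem _
    | mul a b ha hb iha ihb =>
      rw [hS] at ha hb
      have h1 : ((a * b) ^ p : G ⧸ T) = a ^ p * b ^ p := by
        exact (show Commute (a : G ⧸ T) b from hcomm a ha b hb).mul_pow p
      have h2 : (a ^ p * b ^ p)⁻¹ * (a * b) ^ p ∈ T := by
        rw [← QuotientGroup.eq]
        exact h1.symm
      have h3 : (a * b) ^ p = (a ^ p * b ^ p) * ((a ^ p * b ^ p)⁻¹ * (a * b) ^ p) := by group
      rw [h3]
      exact Subgroup.mul_mem _ (Subgroup.mul_mem _ iha ihb) (Subgroup.mem_sup_right h2)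
    | inv a _ iha => rw [inv_pow]; exact Subgroup.inv_mem _ iha
  rw [hM]
  conv_lhs => rw [Z]
  rw [Subgroup.closure_le]
  rintro _ ⟨r, hr, rfl⟩
  rw [pow_one]
  exact key r hr

theorem Emb.Z_succ (hG : IsPGroup p G) (hE : Emb p P j) {R : Subgroup G} (hR : R.Normal)
    (hRP : R ≤ P) (e : ℕ) : Z p 1 (Z p e R) = Z p (e + 1) R := by
  rw [hE.Z_one hG (Z_normal p e R) ((Z_le p e R).trans hRP)
    (S := {g | ∃ r ∈ R, g = r ^ p ^ e}) rfl ?_]
  · rw [Z]
    congr 1
    ext g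
    constructor
    · rintro ⟨_, ⟨r, hr, rfl⟩, rfl⟩
      exact ⟨r, hr, by rw [pow_succ, pow_mul]⟩
    · rintro ⟨r, hr, rfl⟩
      exact ⟨_, ⟨r, hr, rfl⟩, by rw [pow_succ, pow_mul]⟩
  · rintro _ ⟨r, hr, rfl⟩ g
    exact ⟨g * r * g⁻¹, hR.conj_mem r hr g, by rw [conj_pow]⟩

/-- (D1) `p ^ e`-th powers: generators -/
theorem Emb.Z_gen (hG : IsPGroup p G) (hE : Emb p P j) {R : Subgroup G} (hR : R.Normal)
    (hRP : R ≤ P) {S : Set G} (hS : Subgroup.closure S = R)
    (hSG : ∀ s ∈ S, ∀ g : G, g * s * g⁻¹ ∈ S) (e : ℕ) :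
    Z p e R = Subgroup.closure {g | ∃ s ∈ S, g = s ^ p ^ e} := by
  induction e with
  | zero =>
    rw [Z_zero, ← hS]
    congr 1
    ext g
    simp
  | succ e ih =>
    rw [← hE.Z_succ hG hR hRP e, hE.Z_one hG (Z_normal p e R) ((Z_le p e R).trans hRP)
      (S := {g | ∃ s ∈ S, g = s ^ p ^ e}) ih.symm ?_]
    · congr 1
      ext g
      constructor
      · rintro ⟨_, ⟨r, hr, rfl⟩, rfl⟩
        exact ⟨r, hr, by rw [pow_succ, pow_mul]⟩
      · rintro ⟨r, hr, rfl⟩
        exact ⟨_, ⟨r, hr, rfl⟩, by rw [pow_succ, pow_mul]⟩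
    · rintro _ ⟨r, hr, rfl⟩ g
      exact ⟨g * r * g⁻¹, hSG r hr g, by rw [conj_pow]⟩

theorem Emb.Z_Z (hG : IsPGroup p G) (hE : Emb p P j) {R : Subgroup G} (hR : R.Normal)
    (hRP : R ≤ P) (a b : ℕ) : Z p a (Z p b R) = Z p (a + b) R := by
  induction a with
  | zero => rw [Z_zero, zero_add]
  | succ a ih =>
    rw [← hE.Z_succ hG (Z_normal p b R) ((Z_le p b R).trans hRP) a, ih,
      hE.Z_succ hG hR hRP]
    congr 1
    omega

theorem Emb.pow_mem (hG : IsPGroup p G) (hE : Emb p P j) {R : Subgroup G} (hR : R.Normal)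
    (hRP : R ≤ P) {b : ℕ} {r : G} (hr : r ∈ Z p b R) (a : ℕ) : r ^ p ^ a ∈ Z p (a + b) R := by
  rw [← hE.Z_Z hG hR hRP]
  exact pow_mem_Z hr

theorem Emb.comm_Z (hG : IsPGroup p G) (hE : Emb p P j) {R : Subgroup G} (hR : R.Normal)
    (hRP : R ≤ P) (a : ℕ) : ⁅Z p a R, P⁆ ≤ Z p (a + j) R := by
  refine (hE.comm (Z p a R) (Z_normal p a R) ((Z_le p a R).trans hRP)).trans ?_
  rw [hE.Z_Z hG hR hRP, add_comm]

theorem Emb.comm_Z' (hG : IsPGroup p G) (hE : Emb p P j) {R : Subgroup G} (hR : R.Normal)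
    (hRP : R ≤ P) {a : ℕ} {r x : G} (hr : r ∈ Z p a R) (hx : x ∈ P) :
    r * x * r⁻¹ * x⁻¹ ∈ Z p (a + j) R := by
  rw [← commutatorElement_def]
  exact hE.comm_Z hG hR hRP a (Subgroup.commutator_mem_commutator hr hx)

/-- the powers of a nontrivial group go down strictly, so they become trivial -/
theorem Emb.Z_eventually (hG : IsPGroup p G) (R : Subgroup G) : ∃ e, Z p e R = ⊥ := by
  obtain ⟨n, hn⟩ := hG.exists_card_eq
  refine ⟨n, ?_⟩
  rw [eq_bot_iff, Z, Subgroup.closure_le]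
  rintro _ ⟨r, -, rfl⟩
  rw [← hn, SetLike.mem_coe, Subgroup.mem_bot]
  exact pow_card_eq_one'

/-! ### The subgroups `Ω` -/

/-- the elements of `P` with `x ^ (p ^ i) = 1` -/
def Emb.Om (hG : IsPGroup p G) (hE : Emb p P j) (i : ℕ) : Subgroup G where
  carrier := {x | x ∈ P ∧ x ^ p ^ i = 1}
  one_mem' := ⟨P.one_mem, one_pow _⟩
  inv_mem' := by
    rintro x ⟨hx, h1⟩
    exact ⟨P.inv_mem hx, by rw [inv_pow, h1, inv_one]⟩
  mul_mem' := by
    rintro u v ⟨hu, hu1⟩ ⟨hv, hv1⟩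
    refine ⟨P.mul_mem hu hv, ?_⟩
    set S : Set G := {g | ∃ x : G, g = x * u * x⁻¹ ∨ g = x * v * x⁻¹} with hS
    set R := Subgroup.closure S with hRdef
    have hSG : ∀ s ∈ S, ∀ g : G, g * s * g⁻¹ ∈ S := by
      rintro _ ⟨x, rfl | rfl⟩ g
      · exact ⟨g * x, Or.inl (by group)⟩
      · exact ⟨g * x, Or.inr (by group)⟩
    have hSP : S ⊆ P := by
      have hn := hE.normal
      rintro _ ⟨x, rfl | rfl⟩
      · exact hn.conj_mem u hu x
      · exact hn.conj_mem v hv x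
    have hR : R.Normal := by
      refine ⟨fun x hx g => ?_⟩
      have h1 : R ≤ R.comap (MulAut.conj g).toMonoidHom := by
        conv_lhs => rw [hRdef]
        rw [Subgroup.closure_le]
        intro s hs
        exact Subgroup.subset_closure (hSG s hs g)
      exact h1 hx
    have hRP : R ≤ P := by rw [hRdef, Subgroup.closure_le]; exact hSP
    have h1 := hE.Z_gen hG hR hRP (S := S) rfl hSG i
    have h2 : Z p i R = ⊥ := by
      rw [h1, eq_bot_iff, Subgroup.closure_le]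
      rintro _ ⟨s, ⟨x, rfl | rfl⟩, rfl⟩
      · rw [conj_pow, hu1]; simp
      · rw [conj_pow, hv1]; simp
    have h3 : (u * v) ^ p ^ i ∈ Z p i R := by
      refine pow_mem_Z (Subgroup.mul_mem _ ?_ ?_)
      · exact Subgroup.subset_closure ⟨1, Or.inl (by group)⟩
      · exact Subgroup.subset_closure ⟨1, Or.inr (by group)⟩
    rwa [h2, Subgroup.mem_bot] at h3

theorem Emb.mem_Om (hG : IsPGroup p G) (hE : Emb p P j) {i : ℕ} {x : G} :
    x ∈ hE.Om hG i ↔ x ∈ P ∧ x ^ p ^ i = 1 := Iff.rfl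

theorem Emb.Om_le (hG : IsPGroup p G) (hE : Emb p P j) (i : ℕ) : hE.Om hG i ≤ P := fun _ h => h.1

theorem Emb.Om_normal (hG : IsPGroup p G) (hE : Emb p P j) (i : ℕ) : (hE.Om hG i).Normal := by
  refine ⟨fun x hx g => ⟨hE.normal.conj_mem x hx.1 g, ?_⟩⟩
  rw [conj_pow, hx.2]; simp

theorem Emb.Om_zero (hG : IsPGroup p G) (hE : Emb p P j) : hE.Om hG 0 = ⊥ := by
  rw [eq_bot_iff]
  intro x hx
  have := hx.2
  rw [Subgroup.mem_bot]
  simpa using this

theorem Emb.Om_mono (hG : IsPGroup p G) (hE : Emb p P j) {a b : ℕ} (h : a ≤ b) :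
    hE.Om hG a ≤ hE.Om hG b := by
  rintro x ⟨hx, h1⟩
  refine ⟨hx, ?_⟩
  obtain ⟨c, rfl⟩ := Nat.exists_eq_add_of_le h
  rw [pow_add, pow_mul, h1, one_pow]

theorem Emb.Z_Om (hG : IsPGroup p G) (hE : Emb p P j) (e i : ℕ) :
    Z p e (hE.Om hG i) ≤ hE.Om hG (i - e) := by
  rw [Z, Subgroup.closure_le]
  rintro _ ⟨r, hr, rfl⟩
  refine ⟨Subgroup.pow_mem _ hr.1 _, ?_⟩
  rw [← pow_mul, ← pow_add]
  have : i ≤ e + (i - e) := by omega
  exact (hE.Om_mono hG this hr).2

/-- `[Ω_i, P] ≤ Ω_(i-j)` -/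
theorem Emb.comm_Om (hG : IsPGroup p G) (hE : Emb p P j) (i : ℕ) :
    ⁅hE.Om hG i, P⁆ ≤ hE.Om hG (i - j) :=
  (hE.comm _ (hE.Om_normal hG i) (hE.Om_le hG i)).trans (hE.Z_Om hG j i)

theorem Emb.Om_central (hG : IsPGroup p G) (hE : Emb p P j) {i : ℕ} (hi : i ≤ j) :
    ⁅hE.Om hG i, P⁆ = ⊥ := by
  rw [eq_bot_iff, ← hE.Om_zero hG]
  refine (hE.comm_Om hG i).trans (hE.Om_mono hG ?_)
  omega

/-! ### Powers of products -/

/-- `(w v)^(p^e) v^(-p^e)` is `w^(p^e)` modulo `Z_(e+j-1)(R)`, for `w` in `R`, `v` in `P`. -/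
theorem Emb.mul_pow_mod (hG : IsPGroup p G) (hE : Emb p P j) {R : Subgroup G} (hR : R.Normal)
    (hRP : R ≤ P) {w v : G} (hw : w ∈ R) (hv : v ∈ P) (e : ℕ) :
    (w ^ p ^ e)⁻¹ * ((w * v) ^ p ^ e * (v ^ p ^ e)⁻¹) ∈ Z p (e + (j - 1)) R := by
  have h2j := hE.two_le
  -- products of conjugates
  have hprod : ∀ (a : ℕ) (w' v' : G), w' ∈ Z p a R → v' ∈ P → ∀ n : ℕ,
      (w' ^ n)⁻¹ * ((w' * v') ^ n * (v' ^ n)⁻¹) ∈ Z p (a + j) R := by
    intro a w' v' hw' hv' n
    have hTn : (Z p (a + j) R).Normal := Z_normal p (a + j) R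
    have h1 : Commute (w' : G ⧸ Z p (a + j) R) (v' : G ⧸ Z p (a + j) R) := by
      have h2 := hE.comm_Z' hG hR hRP hw' hv'
      change (w' : G ⧸ Z p (a + j) R) * v' = v' * w'
      rw [← QuotientGroup.mk_mul, ← QuotientGroup.mk_mul, eq_comm, QuotientGroup.eq]
      have h3 : (v' * w')⁻¹ * (w' * v') = (v' * w')⁻¹ * (w' * v' * w'⁻¹ * v'⁻¹) * (v' * w') := by
        group
      rw [h3]
      have := hTn.conj_mem _ h2 (v' * w')⁻¹
      simpa using this
    rw [← QuotientGroup.eq]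
    simp only [QuotientGroup.mk_mul, QuotientGroup.mk_inv, QuotientGroup.mk_pow]
    rw [h1.mul_pow]
    group
  induction e with
  | zero =>
    have h1 : (w ^ p ^ 0)⁻¹ * ((w * v) ^ p ^ 0 * (v ^ p ^ 0)⁻¹) = 1 := by
      rw [pow_zero, pow_one, pow_one, pow_one]; group
    rw [h1]
    exact Subgroup.one_mem _
  | succ e ih =>
    set we : G := (w * v) ^ p ^ e * (v ^ p ^ e)⁻¹ with hwe
    set z : G := (w ^ p ^ e)⁻¹ * we with hz
    have hTn : (Z p (e + 1 + (j - 1)) R).Normal := Z_normal p _ R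
    have hz1 : z ^ p ∈ Z p (e + 1 + (j - 1)) R := by
      have := hE.pow_mem hG hR hRP ih 1
      rw [pow_one] at this
      convert this using 2
      omega
    have hweR : we ∈ Z p e R := by
      have h1 : we = w ^ p ^ e * z := by rw [hz]; group
      rw [h1]
      exact Subgroup.mul_mem _ (pow_mem_Z hw) (Z_anti (by omega) R ih)
    -- `we ^ p` is `(w ^ p ^ e) ^ p * z ^ p`
    have h3 : (w ^ p ^ (e + 1))⁻¹ * (we ^ p * (z ^ p)⁻¹) ∈ Z p (e + 1 + (j - 1)) R := by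
      have h4 := hprod e (w ^ p ^ e) z (pow_mem_Z hw) ((Z_le _ _ _).trans hRP ih) p
      rw [← pow_mul, ← pow_succ] at h4
      have h5 : w ^ p ^ e * z = we := by rw [hz]; group
      rw [h5] at h4
      refine Z_anti ?_ R h4
      omega
    have h6 : (we ^ p)⁻¹ * ((we * v ^ p ^ e) ^ p * ((v ^ p ^ e) ^ p)⁻¹) ∈
        Z p (e + 1 + (j - 1)) R := by
      refine Z_anti ?_ R (hprod e we (v ^ p ^ e) hweR (Subgroup.pow_mem _ hv _) p)
      omega
    have h7 : we * v ^ p ^ e = (w * v) ^ p ^ e := by rw [hwe]; group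
    rw [h7, ← pow_mul, ← pow_mul, ← pow_succ] at h6
    have h8 : (w ^ p ^ (e + 1))⁻¹ * ((w * v) ^ p ^ (e + 1) * (v ^ p ^ (e + 1))⁻¹) =
        ((w ^ p ^ (e + 1))⁻¹ * (we ^ p * (z ^ p)⁻¹)) * (z ^ p) *
          ((we ^ p)⁻¹ * ((w * v) ^ p ^ (e + 1) * (v ^ p ^ (e + 1))⁻¹)) := by group
    rw [h8]
    exact Subgroup.mul_mem _ (Subgroup.mul_mem _ h3 hz1) h6

/-- the normal closure of an element, with its generators -/
theorem exists_nc (w : G) (hw : w ∈ P) (hP : P.Normal) : ∃ (R : Subgroup G) (S : Set G), R.Normal ∧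
    R ≤ P ∧ Subgroup.closure S = R ∧ (∀ s ∈ S, ∀ g : G, g * s * g⁻¹ ∈ S) ∧
      (∀ s ∈ S, ∃ x : G, s = x * w * x⁻¹) ∧ w ∈ R := by
  set S : Set G := {g | ∃ x : G, g = x * w * x⁻¹} with hS
  set R := Subgroup.closure S with hRdef
  have hSG : ∀ s ∈ S, ∀ g : G, g * s * g⁻¹ ∈ S := by
    rintro _ ⟨x, rfl⟩ g
    exact ⟨g * x, by group⟩
  have hR : R.Normal := by
    refine ⟨fun x hx g => ?_⟩
    have h1 : R ≤ R.comap (MulAut.conj g).toMonoidHom := by
      conv_lhs => rw [hRdef]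
      rw [Subgroup.closure_le]
      intro s hs
      exact Subgroup.subset_closure (hSG s hs g)
    exact h1 hx
  refine ⟨R, S, hR, ?_, rfl, hSG, fun s hs => hs, Subgroup.subset_closure ⟨1, by group⟩⟩
  rw [hRdef, Subgroup.closure_le]
  rintro _ ⟨x, rfl⟩
  exact hP.conj_mem w hw x

/-- (D3) -/
theorem Emb.pow_eq_pow (hG : IsPGroup p G) (hE : Emb p P j) {u v : G} (hu : u ∈ P) (hv : v ∈ P)
    (e : ℕ) (h : u ^ p ^ e = v ^ p ^ e) : (u * v⁻¹) ^ p ^ e = 1 := by
  set w := u * v⁻¹ with hw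
  have hwP : w ∈ P := P.mul_mem hu (P.inv_mem hv)
  obtain ⟨R, S, hR, hRP, hSR, hSG, hSw, hwR⟩ := exists_nc w hwP hE.normal
  have h2j := hE.two_le
  have h1 := hE.mul_pow_mod hG hR hRP hwR hv e
  have h2 : w * v = u := by rw [hw]; group
  rw [h2, h, mul_inv_cancel, mul_one] at h1
  have h3 : w ^ p ^ e ∈ Z p (e + 1) R := by
    have h4 := Subgroup.inv_mem _ h1
    rw [inv_inv] at h4
    exact Z_anti (by omega) R h4
  have h5 : Z p e R ≤ Z p (e + 1) R := by
    rw [hE.Z_gen hG hR hRP hSR hSG e, Subgroup.closure_le]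
    rintro _ ⟨s, hs, rfl⟩
    obtain ⟨x, rfl⟩ := hSw s hs
    rw [conj_pow]
    exact (Z_normal p (e + 1) R).conj_mem _ h3 x
  have h6 : Z p e R = ⊥ := by
    refine eq_bot_of_Z hG ?_
    rw [hE.Z_succ hG hR hRP]
    exact h5
  have h7 : w ^ p ^ e ∈ Z p e R := pow_mem_Z hwR
  rwa [h6, Subgroup.mem_bot] at h7

/-- (D5) multiplication by an element of `Ω_e` does not change the `p ^ e`-th power -/
theorem Emb.mul_pow_of_Om (hG : IsPGroup p G) (hE : Emb p P j) {w v : G} (hw : w ∈ P) (hv : v ∈ P)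
    (e : ℕ) (h : w ^ p ^ e = 1) : (w * v) ^ p ^ e = v ^ p ^ e := by
  obtain ⟨R, S, hR, hRP, hSR, hSG, hSw, hwR⟩ := exists_nc w hw hE.normal
  have h2 : Z p e R = ⊥ := by
    rw [hE.Z_gen hG hR hRP hSR hSG e, eq_bot_iff, Subgroup.closure_le]
    rintro _ ⟨s, hs, rfl⟩
    obtain ⟨x, rfl⟩ := hSw s hs
    rw [conj_pow, h]; simp
  have h1 := Z_anti (Nat.le_add_right e (j - 1)) R (hE.mul_pow_mod hG hR hRP hwR hv e)
  rw [h2, Subgroup.mem_bot, h, inv_one, one_mul] at h1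
  exact mul_inv_eq_one.mp h1

theorem Emb.pow_eq_pow_iff (hG : IsPGroup p G) (hE : Emb p P j) {u v : G} (hu : u ∈ P) (hv : v ∈ P)
    (e : ℕ) : u ^ p ^ e = v ^ p ^ e ↔ (u * v⁻¹) ^ p ^ e = 1 := by
  refine ⟨hE.pow_eq_pow hG hu hv e, fun h => ?_⟩
  have h1 := hE.mul_pow_of_Om hG (P.mul_mem hu (P.inv_mem hv)) hv e h
  rw [← h1]
  congr 1
  group

/-- (D4) every element of `Z_1(R)` is a `p`-th power of an element of `R` -/
theorem Emb.exists_root_one (hG : IsPGroup p G) (hE : Emb p P j) {R : Subgroup G} (hR : R.Normal)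
    (hRP : R ≤ P) {z : G} (hz : z ∈ Z p 1 R) : ∃ r ∈ R, z = r ^ p := by
  have h2j := hE.two_le
  obtain ⟨N, hN⟩ := Emb.Z_eventually hG R
  have key : ∀ n b, N ≤ b + n → ∀ z ∈ Z p (b + 1) R, ∀ a ∈ R, ∃ r ∈ R, a ^ p * z = r ^ p := by
    intro n
    induction n with
    | zero =>
      intro b hb z hz a ha
      have h1 : z ∈ Z p N R := Z_anti (by omega) R hz
      rw [hN, Subgroup.mem_bot] at h1
      exact ⟨a, ha, by rw [h1, mul_one]⟩
    | succ n ih =>
      intro b hb z hz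
      rw [← hE.Z_succ hG hR hRP b] at hz
      -- one factor
      have one : ∀ c ∈ Z p b R, ∀ a ∈ R, ∃ r ∈ R, a ^ p * c ^ p = r ^ p := by
        intro c hc a ha
        have hTn : (Z p (b + j) R).Normal := Z_normal p _ R
        have h1 : Commute (c : G ⧸ Z p (b + j) R) (a : G ⧸ Z p (b + j) R) := by
          have h2 := hE.comm_Z' hG hR hRP hc (hRP ha)
          change (c : G ⧸ Z p (b + j) R) * a = a * c
          rw [← QuotientGroup.mk_mul, ← QuotientGroup.mk_mul, eq_comm, QuotientGroup.eq]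
          have h3 : (a * c)⁻¹ * (c * a) = (a * c)⁻¹ * (c * a * c⁻¹ * a⁻¹) * (a * c) := by group
          rw [h3]
          have := hTn.conj_mem _ h2 (a * c)⁻¹
          simpa using this
        have h2 : ((a * c) ^ p)⁻¹ * (a ^ p * c ^ p) ∈ Z p (b + j) R := by
          rw [← QuotientGroup.eq]
          exact h1.symm.mul_pow p
        have h3 := Z_anti (a := b + 1 + 1) (by omega) R h2
        obtain ⟨r, hr, hr2⟩ := ih (b + 1) (by omega) _ h3 (a * c)
          (R.mul_mem ha (Z_le _ _ _ hc))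
        exact ⟨r, hr, by rw [← hr2]; group⟩
      conv at hz => rw [Z]
      induction hz using Subgroup.closure_induction with
      | mem x hx =>
        obtain ⟨c, hc, rfl⟩ := hx
        rw [pow_one]
        exact one c hc
      | one => intro a ha; exact ⟨a, ha, by rw [mul_one]⟩
      | mul x y _ _ ihx ihy =>
        intro a ha
        obtain ⟨r, hr, hr2⟩ := ihx a ha
        obtain ⟨s, hs, hs2⟩ := ihy r hr
        exact ⟨s, hs, by rw [← mul_assoc, hr2, hs2]⟩
      | inv x hx ihx =>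
        -- the map `a ↦ r` may be inverted by finiteness; use powers instead
        intro a ha
        have hpow : ∀ m : ℕ, ∀ a ∈ R, ∃ r ∈ R, a ^ p * x ^ m = r ^ p := by
          intro m
          induction m with
          | zero => intro a ha; exact ⟨a, ha, by rw [pow_zero, mul_one]⟩
          | succ m ihm =>
            intro a ha
            obtain ⟨r, hr, hr2⟩ := ihm a ha
            obtain ⟨s, hs, hs2⟩ := ihx r hr
            exact ⟨s, hs, by rw [pow_succ, ← mul_assoc, hr2, hs2]⟩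
        have h1 : x⁻¹ = x ^ (orderOf x - 1) := by
          rw [inv_eq_iff_mul_eq_one, ← pow_succ', Nat.sub_add_cancel (orderOf_pos x),
            pow_orderOf_eq_one]
        rw [h1]
        exact hpow _ a ha
  obtain ⟨r, hr, hr2⟩ := key N 0 (by omega) z hz 1 R.one_mem
  exact ⟨r, hr, by rw [← hr2, one_pow, one_mul]⟩

/-- (D4) every element of `Z_e(R)` is a `p ^ e`-th power of an element of `R` -/
theorem Emb.exists_root (hG : IsPGroup p G) (hE : Emb p P j) {R : Subgroup G} (hR : R.Normal)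
    (hRP : R ≤ P) (e : ℕ) {z : G} (hz : z ∈ Z p e R) : ∃ r ∈ R, z = r ^ p ^ e := by
  induction e generalizing z with
  | zero =>
    rw [Z_zero] at hz
    exact ⟨z, hz, by simp⟩
  | succ e ih =>
    rw [← hE.Z_succ hG hR hRP e] at hz
    obtain ⟨c, hc, rfl⟩ := hE.exists_root_one hG (Z_normal p e R) ((Z_le _ _ _).trans hRP) hz
    obtain ⟨r, hr, rfl⟩ := ih hc
    exact ⟨r, hr, by rw [pow_succ, pow_mul]⟩

theorem Emb.mem_Z_iff (hG : IsPGroup p G) (hE : Emb p P j) {R : Subgroup G} (hR : R.Normal)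
    (hRP : R ≤ P) (e : ℕ) {z : G} : z ∈ Z p e R ↔ ∃ r ∈ R, z = r ^ p ^ e :=
  ⟨hE.exists_root hG hR hRP e, by rintro ⟨r, hr, rfl⟩; exact pow_mem_Z hr⟩

end main

end Pool.Agent.Helper60.RK
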