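import Pool.Agent.Helper60.RK.Dim
import Pool.Agent.Helper60.RK.Power
import Pool.Agent.Helper46.RK.HallPetrescu

/-!
# STAR: commutators with deep elements are deep powers

`G` is a finite `p`-group of class at most `k`, `R` a normal subgroup. Then
`[R, D_(p^t k)] ≤ ⟨r ^ (p ^ t) : r ∈ R⟩`.
-/

set_option autoImplicit false

namespace Pool.Agent.Helper60.RK

open Pool.Agent.Helper27.BE
open Pool.Agent.Helper46.RK (NSer comm_pow)
open scoped commutatorElement

/-- `p ^ t` divides `(p ^ s).choose l` if `p ^ t * l ≤ p ^ s`. -/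
theorem dvd_choose {p : ℕ} (hp : p.Prime) {s t l : ℕ} (hl : 1 ≤ l) (h : p ^ t * l ≤ p ^ s) :
    p ^ t ∣ (p ^ s).choose l := by
  have h1 : l * (p ^ s).choose l = p ^ s * (p ^ s - 1).choose (l - 1) := by
    have h2 := Nat.add_one_mul_choose_eq (p ^ s - 1) (l - 1)
    have h3 : p ^ s - 1 + 1 = p ^ s := Nat.sub_add_cancel (Nat.one_le_pow _ _ hp.pos)
    have h4 : l - 1 + 1 = l := Nat.sub_add_cancel hl
    rw [h3, h4] at h2
    rw [h2]
    ring
  obtain ⟨v, m, hm, hlm⟩ := Nat.exists_eq_pow_mul_and_not_dvd (n := l) (by omega) p hp.ne_one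
  have hcop : Nat.Coprime (p ^ s) m := Nat.Coprime.pow_left _ ((hp.coprime_iff_not_dvd).mpr hm)
  have hvt : v + t ≤ s := by
    have h5 : p ^ v ≤ l := by
      rw [hlm]
      refine Nat.le_mul_of_pos_right _ (Nat.pos_of_ne_zero ?_)
      rintro rfl
      exact hm (dvd_zero p)
    have h6 : p ^ (v + t) ≤ p ^ s := by
      rw [pow_add, mul_comm]
      exact (Nat.mul_le_mul_left _ h5).trans h
    exact (Nat.pow_le_pow_iff_right hp.one_lt).mp h6
  have h7 : p ^ s ∣ (p ^ v * (p ^ s).choose l) * m := by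
    refine ⟨(p ^ s - 1).choose (l - 1), ?_⟩
    rw [← h1]
    conv_rhs => rw [hlm]
    conv_lhs => rw [hlm]
    ring
  have h8 : p ^ s ∣ p ^ v * (p ^ s).choose l := hcop.dvd_of_dvd_mul_right h7
  have h9 : p ^ s = p ^ v * p ^ (s - v) := by rw [← pow_add]; congr 1; omega
  rw [h9] at h8
  have h10 : p ^ (s - v) ∣ (p ^ s).choose l := by
    rw [h9]
    exact Nat.dvd_of_mul_dvd_mul_left (pow_pos hp.pos v) h8
  exact (pow_dvd_pow p (by omega)).trans h10

section
variable {p : ℕ} [hp : Fact p.Prime] {G : Type} [Group G]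

theorem gam_normal' (i : ℕ) : (gam G i).Normal := by
  unfold gam
  infer_instance

theorem gam_anti' {i j : ℕ} (h : i ≤ j) : gam G j ≤ gam G i :=
  Subgroup.lowerCentralSeries_antitone _ (by omega)

theorem gam_commutator {i j : ℕ} (hi : 1 ≤ i) (hj : 1 ≤ j) : ⁅gam G i, gam G j⁆ ≤ gam G (i + j) := by
  rw [Subgroup.commutator_le]
  intro x hx y hy
  rw [commutatorElement_def]
  exact (Pool.Agent.Helper31.BE.gamCalc G).comm i j hi hj x hx y hy

/-- the filtration `⊤, gam j, gam (2 j), …` -/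
theorem nser_gam {j : ℕ} (hj : 1 ≤ j) :
    NSer (fun l : ℕ => if l = 0 then (⊤ : Subgroup G) else gam G (j * l)) where
  anti := by
    intro a b hab
    by_cases ha : a = 0
    · simp [ha]
    · have hb : b ≠ 0 := by omega
      simp only [ha, hb, if_false]
      exact gam_anti' (Nat.mul_le_mul_left _ hab)
  comm := by
    intro a b
    by_cases ha : a = 0
    · by_cases hb : b = 0
      · simp [ha, hb]
      · simp only [ha, hb, if_true, if_false, zero_add]
        have := gam_normal' (G := G) (j * b)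
        exact Subgroup.commutator_le_right _ _
    · by_cases hb : b = 0
      · simp only [ha, hb, if_true, if_false, add_zero]
        have := gam_normal' (G := G) (j * a)
        exact Subgroup.commutator_le_left _ _
      · have hab : a + b ≠ 0 := by omega
        simp only [ha, hb, hab, if_false]
        rw [mul_add]
        exact gam_commutator (Nat.mul_pos hj (Nat.pos_of_ne_zero ha))
          (Nat.mul_pos hj (Nat.pos_of_ne_zero hb))

/-- the commutator with one power -/
theorem star_gen (hpr : p.Prime) {k : ℕ} (hk : gam G (k + 1) = ⊥) {t s j : ℕ} (hj : 1 ≤ j)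
    (hs : p ^ t * k ≤ j * p ^ s) {R T : Subgroup G} (hR : R.Normal)
    (hRT : ∀ r ∈ R, r ^ p ^ t ∈ T) {x y : G} (hx : x ∈ gam G j) (hy : y ∈ R) :
    ⁅y, x ^ p ^ s⁆ ∈ T := by
  have hF := nser_gam (G := G) hj
  obtain ⟨c, hc, hc0, -, hcL⟩ := comm_pow hF (i := 0) (x := y) (y := x) (by simp) (by simpa using hx)
  -- the coefficients lie in `R`
  have hcR : ∀ l, c l ∈ R := by
    intro l
    induction l using Nat.strong_induction_on with
    | _ l ih =>
      have h1 := hcL (l + 1) l (Or.inl (Nat.lt_succ_self l))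
      rw [List.range_succ, List.map_append, List.prod_append, List.map_singleton,
        List.prod_singleton, Nat.choose_self, pow_one] at h1
      have h2 : ⁅y, x ^ l⁆ ∈ R := by
        rw [commutatorElement_def]
        have h3 : y * x ^ l * y⁻¹ * (x ^ l)⁻¹ = y * (x ^ l * y⁻¹ * (x ^ l)⁻¹) := by group
        rw [h3]
        exact R.mul_mem hy (hR.conj_mem _ (R.inv_mem hy) _)
      have h3 : ((List.range l).map fun a => c a ^ (l.choose a)).prod ∈ R := by
        refine Subgroup.list_prod_mem _ ?_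
        intro g hg
        obtain ⟨a, ha, rfl⟩ := List.mem_map.mp hg
        exact R.pow_mem (ih a (List.mem_range.mp ha)) _
      have h4 : c l = (((List.range l).map fun a => c a ^ (l.choose a)).prod)⁻¹ * ⁅y, x ^ l⁆ := by
        rw [h1]; group
      rw [h4]
      exact R.mul_mem (R.inv_mem h3) h2
  have h1 := hcL (k + 1) (p ^ s) (Or.inr (by
    simp only [zero_add, Nat.add_eq_zero_iff, one_ne_zero, and_false, if_false]
    rw [eq_bot_iff, ← hk]
    exact gam_anti' (by nlinarith)))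
  rw [h1]
  refine Subgroup.list_prod_mem _ ?_
  intro g hg
  obtain ⟨l, -, rfl⟩ := List.mem_map.mp hg
  rcases Nat.eq_zero_or_pos l with rfl | hl
  · rw [hc0, one_pow]; exact T.one_mem
  · have h2 := hc l
    simp only [zero_add, hl.ne', if_false] at h2
    by_cases hjl : j * l ≤ k
    · have h3 : p ^ t * l ≤ p ^ s := by
        have h4 : j * (p ^ t * l) ≤ j * p ^ s :=
          calc j * (p ^ t * l) = p ^ t * (j * l) := by ring
            _ ≤ p ^ t * k := Nat.mul_le_mul_left _ hjl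
            _ ≤ _ := hs
        exact Nat.le_of_mul_le_mul_left h4 hj
      obtain ⟨m, hm⟩ := dvd_choose hpr hl h3
      rw [hm, pow_mul]
      exact T.pow_mem (hRT _ (hcR l)) _
    · have h3 : c l ∈ gam G (k + 1) := gam_anti' (by omega) h2
      rw [hk, Subgroup.mem_bot] at h3
      rw [h3, one_pow]
      exact T.one_mem

/-- **STAR** -/
theorem star_le [Finite G] (hG : IsPGroup p G) {k : ℕ} (hk0 : 1 ≤ k) (hk : gam G (k + 1) = ⊥)
    {t : ℕ} {R T : Subgroup G} (hR : R.Normal) (hT : T.Normal) (hRT : ∀ r ∈ R, r ^ p ^ t ∈ T) :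
    ⁅R, dimSub p G (p ^ t * k)⁆ ≤ T := by
  rw [Subgroup.commutator_le]
  intro y hy x hx
  rw [dimSub_eq_closure_class hG hk (Nat.mul_pos (pow_pos hp.out.pos t) hk0)] at hx
  have key : ∀ x ∈ Subgroup.closure {g : G | ∃ (j s : ℕ) (x : G), 1 ≤ j ∧ j ≤ k ∧ x ∈ gam G j ∧
      p ^ t * k ≤ j * p ^ s ∧ g = x ^ p ^ s}, ∀ y ∈ R, ⁅y, x⁆ ∈ T := by
    intro x hx
    induction hx using Subgroup.closure_induction with
    | mem x hx =>
      obtain ⟨j, s, x, hj, -, hx, hjs, rfl⟩ := hx
      intro y hy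
      exact star_gen hp.out hk hj hjs hR hRT hx hy
    | one => intro y _; rw [commutatorElement_one_right]; exact T.one_mem
    | mul a b _ _ iha ihb =>
      intro y hy
      have h1 : ⁅y, a * b⁆ = ⁅y, a⁆ * (a * ⁅y, b⁆ * a⁻¹) := by
        simp only [commutatorElement_def]; group
      rw [h1]
      exact T.mul_mem (iha y hy) (hT.conj_mem _ (ihb y hy) a)
    | inv a _ iha =>
      intro y hy
      have h1 : ⁅y, a⁻¹⁆ = a⁻¹ * (⁅y, a⁆)⁻¹ * a := by
        simp only [commutatorElement_def]; group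
      rw [h1]
      have := hT.conj_mem _ (T.inv_mem (iha y hy)) a⁻¹
      simpa using this
  exact key x hx y hy

/-- **STAR** for the subgroups `Z` -/
theorem star [Finite G] (hG : IsPGroup p G) {k : ℕ} (hk0 : 1 ≤ k) (hk : gam G (k + 1) = ⊥)
    (t : ℕ) {R : Subgroup G} (hR : R.Normal) : ⁅R, dimSub p G (p ^ t * k)⁆ ≤ Z p t R :=
  star_le hG hk0 hk hR (Z_normal p t R) fun _ hr => pow_mem_Z hr

theorem emb_dimSub [Finite G] (hG : IsPGroup p G) {k : ℕ} (hk0 : 1 ≤ k) (hk : gam G (k + 1) = ⊥)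
    {t : ℕ} (ht : 2 ≤ t) : Emb p (dimSub p G (p ^ t * k)) t where
  normal := dimSub_normal _
  two_le := ht
  comm := fun _ hR _ => star hG hk0 hk t hR

/-- (D5) `P_(s+c) ≤ ⟨w ^ (p ^ c) : w ∈ P_s⟩` -/
theorem dimSub_add_le [Finite G] (hG : IsPGroup p G) {k : ℕ} (hk0 : 1 ≤ k)
    (hk : gam G (k + 1) = ⊥) (s c : ℕ) :
    dimSub p G (p ^ (s + c) * k) ≤ Z p c (dimSub p G (p ^ s * k)) := by
  rw [dimSub_eq_closure_class hG hk (Nat.mul_pos (pow_pos hp.out.pos _) hk0), Subgroup.closure_le]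
  rintro _ ⟨j, i, x, hj, hjk, hx, hji, rfl⟩
  have hci : c ≤ i := by
    have h1 : p ^ c * k ≤ k * p ^ i := by
      calc p ^ c * k ≤ p ^ (s + c) * k :=
            Nat.mul_le_mul_right _ (Nat.pow_le_pow_right hp.out.pos (by omega))
        _ ≤ j * p ^ i := hji
        _ ≤ k * p ^ i := Nat.mul_le_mul_right _ hjk
    rw [mul_comm] at h1
    exact (Nat.pow_le_pow_iff_right hp.out.one_lt).mp (Nat.le_of_mul_le_mul_left h1 hk0)
  obtain ⟨i', rfl⟩ := Nat.exists_eq_add_of_le' hci
  rw [pow_add, pow_mul]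
  refine pow_mem_Z ?_
  refine PwGe_sub (p := p) _ ⟨j, i', x, hj, hx, ?_, rfl⟩
  have h2 : p ^ c * (p ^ s * k) ≤ p ^ c * (j * p ^ i') :=
    calc p ^ c * (p ^ s * k) = p ^ (s + c) * k := by rw [pow_add]; ring
      _ ≤ j * p ^ (i' + c) := hji
      _ = _ := by rw [pow_add]; ring
  exact Nat.le_of_mul_le_mul_left h2 (pow_pos hp.out.pos c)

end

end Pool.Agent.Helper60.RK
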