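import Pool.Agent.Helper27.BE.Jennings

/-!
# The Lazard series of a finite `p`-group

`dimSub p B i` is the set of `g` with `g - 1` in the `i`-th power of the augmentation ideal of the
group algebra over `ZMod p`. It is an `N_p`-series, and it is generated by the elements
`x ^ p ^ s`, `x` in the `j`-th term of the lower central series, `i ≤ j * p ^ s`.
-/

set_option autoImplicit false

namespace Pool.Agent.Helper60.RK

open Finset Pool.Agent.Helper27.BE
open Pool.Agent.Helper31.BE (dlt_pow dlt_gam_mem comm_mem)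
open Pool.Agent.Helper76.BE (Fil_zero Fil_anti Fil_mul Fil_succ Fil_zero_le exists_dimSub Fil_eq_bot
  dlt_mul dlt_one Fil_mul_top top_mul_Fil)
open Pool.Agent.Helper71.BE (finrank_quot_le dimSub_index)
open Pool.Agent.Helper87.BE (exists_basis)

section
variable {p : ℕ} [hp : Fact p.Prime] {B : Type} [Group B]

theorem eq_one_of_dlt {g : B} (hg : dlt p B g = 0) : g = 1 := by
  rw [dlt, sub_eq_zero] at hg
  have : MonoidAlgebra.of (ZMod p) B g = MonoidAlgebra.of (ZMod p) B 1 := by
    rw [hg]; rfl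
  exact MonoidAlgebra.of_injective this

theorem dimSub_one : dimSub p B 1 = ⊤ := by
  rw [eq_top_iff]; intro g _; rw [mem_dimSub]; exact dlt_mem_one g

theorem dimSub_zero : dimSub p B 0 = ⊤ := by
  rw [eq_top_iff]; intro g _; rw [mem_dimSub, Fil_zero]; trivial

theorem exists_dimSub_bot [Finite B] (hB : IsPGroup p B) : ∃ N, 1 ≤ N ∧ dimSub p B N = ⊥ ∧
    Fil p B N = ⊥ := by
  obtain ⟨N, hN1, hN⟩ := Fil_eq_bot (p := p) (B := B) hB
  refine ⟨N, hN1, ?_, hN⟩
  rw [eq_bot_iff]; intro g hg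
  rw [mem_dimSub, hN, Submodule.mem_bot] at hg
  exact eq_one_of_dlt hg

/-- the commutator of `D_a` and `D_b` -/
theorem dimSub_comm {a b : ℕ} {x y : B} (hx : x ∈ dimSub p B a) (hy : y ∈ dimSub p B b) :
    x * y * x⁻¹ * y⁻¹ ∈ dimSub p B (a + b) := by
  rw [mem_dimSub] at hx hy ⊢
  have h1 : dlt p B (x * y * x⁻¹ * y⁻¹) =
      (dlt p B x * dlt p B y - dlt p B y * dlt p B x) * MonoidAlgebra.of (ZMod p) B (x⁻¹ * y⁻¹) := by
    have h2 : dlt p B x * dlt p B y - dlt p B y * dlt p B x =
        MonoidAlgebra.of (ZMod p) B (x * y) - MonoidAlgebra.of (ZMod p) B (y * x) := by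
      simp only [dlt, map_mul]
      noncomm_ring
    rw [h2, sub_mul, ← map_mul, ← map_mul, dlt]
    congr 1
    · congr 1; group
    · rw [← map_one (MonoidAlgebra.of (ZMod p) B)]
      congr 1; group
  rw [h1]
  refine Fil_mul_top _ (Submodule.mul_mem_mul (Submodule.sub_mem _ ?_ ?_) Submodule.mem_top)
  · exact Fil_mul _ _ (Submodule.mul_mem_mul hx hy)
  · rw [add_comm]
    exact Fil_mul _ _ (Submodule.mul_mem_mul hy hx)

theorem dimSub_commutator (a b : ℕ) : ⁅dimSub p B a, dimSub p B b⁆ ≤ dimSub p B (a + b) := by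
  rw [Subgroup.commutator_le]
  intro x hx y hy
  rw [commutatorElement_def]
  exact dimSub_comm hx hy

instance dimSub_normal (i : ℕ) : (dimSub p B i).Normal := by
  refine ⟨fun x hx g => ?_⟩
  have h1 := dimSub_comm (a := 0) (b := i) (p := p) (x := g) (y := x) (by rw [dimSub_zero]; trivial) hx
  rw [zero_add] at h1
  have h2 := Subgroup.mul_mem _ h1 hx
  simpa using h2

theorem dimSub_pow_prime_pow {a : ℕ} {x : B} (hx : x ∈ dimSub p B a) (s : ℕ) :
    x ^ p ^ s ∈ dimSub p B (a * p ^ s) := by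
  rw [mem_dimSub] at hx ⊢
  rw [dlt_pow]
  exact Fil_pow_mem hx _

theorem dimSub_pow_prime {a : ℕ} {x : B} (hx : x ∈ dimSub p B a) :
    x ^ p ∈ dimSub p B (p * a) := by
  have := dimSub_pow_prime_pow hx 1
  rwa [pow_one, mul_comm] at this

theorem gam_le_dimSub (j : ℕ) : gam B j ≤ dimSub p B j := fun x hx => by
  rw [mem_dimSub]; exact dlt_gam_mem hx

/-- The elements `x ^ p ^ s` with `x` in the `j`-th term of the lower central series and
`i ≤ j * p ^ s`. -/
def PwGe (p : ℕ) (B : Type) [Group B] (i : ℕ) : Set B :=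
  {g | ∃ (j s : ℕ) (x : B), 1 ≤ j ∧ x ∈ gam B j ∧ i ≤ j * p ^ s ∧ g = x ^ p ^ s}

theorem PwGe_sub (i : ℕ) : PwGe p B i ⊆ dimSub p B i := by
  rintro _ ⟨j, s, x, -, hx, hi, rfl⟩
  exact dimSub_anti hi (dimSub_pow_prime_pow (gam_le_dimSub j hx) s)

/-- The graded pieces are spanned by the powers. -/
theorem dimSub_span [Finite B] (hB : IsPGroup p B) {i : ℕ} (hi1 : 1 ≤ i) {g : B}
    (hg : g ∈ dimSub p B i) :
    dlt p B g ∈ Submodule.span (ZMod p) (dlt p B '' Pw p B i) ⊔ Fil p B (i + 1) := by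
  obtain ⟨m, hm⟩ := hB.exists_card_eq
  have hfinA : Module.Finite (ZMod p) (MonoidAlgebra (ZMod p) B) :=
    Module.Finite.of_basis (MonoidAlgebra.basis B (ZMod p))
  obtain ⟨N, hN1, hEN, hN⟩ := exists_dimSub_bot (p := p) (B := B) hB
  set T : ℕ → Set (MonoidAlgebra (ZMod p) B) := fun i => dlt p B '' Pw p B i with hTdef
  have hT : ∀ i, T i ⊆ Fil p B i := by
    rintro i _ ⟨g, hg, rfl⟩
    exact Pw_mem hg
  obtain ⟨r, X, w, hX, hspan, hcount⟩ := exists_basis (Fil p B) Fil_anti T N hT hN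
  have hXF : ∀ s, X s ∈ Fil p B (w s) := fun s => hT _ (hX s).2.2
  have hF : ∀ k, Fil p B k ≤ Submodule.span (ZMod p)
      {a | ∃ α : Fin r → Fin p, wt w α = k ∧ a = mon X α} ⊔ Fil p B (k + 1) := by
    refine straighten (Fil p B) Fil_zero Fil_anti Fil_mul X w (fun s => (hX s).1) hXF ?_ ?_ ?_
      Fil_zero_le
    · intro s t
      obtain ⟨g, ⟨i, k, x, hi, hx, hik, rfl⟩, hg⟩ := (hX s).2.2
      obtain ⟨g', ⟨j, l, y, hj, hy, hjl, rfl⟩, hg'⟩ := (hX t).2.2
      obtain ⟨z, hz, hz2⟩ := comm_mem (p := p) (k := k) (l := l) hi hj hx hy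
      rw [hik, hjl] at hz hz2
      rw [← hg, ← hg']
      have h1 : dlt p B z ∈ Submodule.span (ZMod p) {a | ∃ u, w u = w s + w t ∧ a = X u} ⊔
          Fil p B (w s + w t + 1) := by
        refine hspan _ (by have := (hX s).1; omega) ⟨z, ⟨w s + w t, 0, z, ?_, hz, by simp, by simp⟩,
          rfl⟩
        have := (hX s).1; omega
      have h2 := Submodule.add_mem _ (Submodule.mem_sup_right (S := Submodule.span (ZMod p)
        {a | ∃ u, w u = w s + w t ∧ a = X u}) hz2) h1
      simpa using h2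
    · intro s
      obtain ⟨g, ⟨i, k, x, hi, hx, hik, rfl⟩, hg⟩ := (hX s).2.2
      refine hspan _ ?_ ⟨x ^ p ^ (k + 1), ⟨i, k + 1, x, hi, hx, ?_, rfl⟩, ?_⟩
      · exact Nat.mul_pos hp.out.pos (hX s).1
      · rw [← hik]; ring
      · rw [← hg, dlt_pow, dlt_pow, ← pow_mul, pow_succ]
    · intro k
      have h1 : aug p B ≤ Submodule.span (ZMod p) {a | ∃ u, w u = 1 ∧ a = X u} ⊔ Fil p B 2 := by
        rw [aug, Submodule.span_le]
        rintro _ ⟨g, rfl⟩
        exact hspan 1 le_rfl ⟨g, ⟨1, 0, g, le_rfl, by simp [gam_one], by simp, by simp⟩, rfl⟩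
      refine (Fil_succ k).trans ((mul_le_mul' h1 le_rfl).trans ?_)
      rw [Submodule.sup_mul]
      refine sup_le_sup le_rfl ?_
      have h2 := Fil_mul (p := p) (B := B) 2 k
      rwa [add_comm] at h2
  have hE1 : dimSub p B 1 = ⊤ := dimSub_one
  have hidx : ∀ i, ∃ d, (dimSub p B (i + 1)).relIndex (dimSub p B i) = p ^ d := by
    intro i
    have h1 : (dimSub p B (i + 1)).relIndex (dimSub p B i) ∣ p ^ m := by
      have h2 := Subgroup.relIndex_dvd_card (dimSub p B (i + 1)) (dimSub p B i)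
      exact h2.trans ((Subgroup.card_subgroup_dvd_card _).trans hm.dvd)
    obtain ⟨d, -, hd⟩ := (Nat.dvd_prime_pow hp.out).mp h1
    exact ⟨d, hd⟩
  choose d hd using hidx
  have hprod : ∀ n, 1 ≤ n → (dimSub p B n).index = p ^ (∑ i ∈ Ico 1 n, d i) := by
    intro n hn
    induction n, hn using Nat.le_induction with
    | base => simp [hE1]
    | succ n hn ih =>
      rw [sum_Ico_succ_top hn, pow_add, ← ih, ← hd n, mul_comm]
      exact (Subgroup.relIndex_mul_index (dimSub_anti (Nat.le_succ n))).symm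
  have hsumd : ∑ i ∈ Ico 1 N, d i = m := by
    have h1 := hprod N hN1
    rw [hEN, Subgroup.index_bot, hm] at h1
    exact (Nat.pow_right_injective hp.out.two_le h1).symm
  have hdim : ∀ i, 1 ≤ i → _ := fun i hi => dimSub_index (p := p) i (dimSub p B i)
    (dimSub p B (i + 1)) (mem_dimSub i) (mem_dimSub (i + 1))
    ((Fil_mul i i).trans (Fil_le (by omega))) (Pw p B i)
    (fun g hg => (mem_dimSub i g).mpr (Pw_mem hg)) (d i) (hd i)
  have hr : r = ∑ i ∈ Ico 1 N, (univ.filter fun s => w s = i).card := by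
    rw [← card_biUnion]
    · conv_lhs => rw [← Fintype.card_fin r, ← card_univ]
      congr 1
      ext s
      simp only [mem_univ, mem_biUnion, mem_Ico, mem_filter, true_and, true_iff]
      exact ⟨w s, ⟨(hX s).1, (hX s).2.1⟩, rfl⟩
    · intro i _ j _ hij
      change Disjoint _ _
      rw [disjoint_left]
      intro s hs hs'
      rw [mem_filter] at hs hs'
      exact hij (hs.2.symm.trans hs'.2)
  have hmr : m ≤ r := by
    have h1 := (finrank_quot_le (Fil p B) Fil_zero X w (fun s => (hX s).1) hF N).2.1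
    have h2 : Module.finrank (ZMod p) (MonoidAlgebra (ZMod p) B ⧸ Fil p B N) = p ^ m := by
      rw [hN]
      have h3 := (Submodule.quotEquivOfEqBot (⊥ : Submodule (ZMod p)
        (MonoidAlgebra (ZMod p) B)) rfl).finrank_eq
      rw [h3]
      have := Fintype.ofFinite B
      rw [Module.finrank_eq_card_basis (MonoidAlgebra.basis B (ZMod p)),
        ← Nat.card_eq_fintype_card, hm]
    rw [h2] at h1
    exact (Nat.pow_le_pow_iff_right hp.out.one_lt).mp h1
  have hle : ∀ i ∈ Ico 1 N, (univ.filter fun s => w s = i).card ≤ d i := by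
    intro i hi
    rw [mem_Ico] at hi
    rw [hcount i hi.1 hi.2]
    exact (hdim i hi.1).1
  have hrm : r = m := by
    refine le_antisymm ?_ hmr
    rw [hr, ← hsumd]
    exact sum_le_sum hle
  have heq : ∀ i ∈ Ico 1 N, (univ.filter fun s => w s = i).card = d i := by
    refine (sum_eq_sum_iff_of_le hle).mp ?_
    rw [← hr, hsumd, hrm]
  rcases Nat.lt_or_ge i N with hiN | hiN
  · exact (hdim i hi1).2 (by
      rw [← heq i (mem_Ico.mpr ⟨hi1, hiN⟩), hcount i hi1 hiN]) g hg
  · have h1 : dlt p B g ∈ Fil p B N := Fil_le hiN ((mem_dimSub i g).mp hg)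
    rw [hN, Submodule.mem_bot] at h1
    rw [h1]
    exact Submodule.zero_mem _

/-- Modulo `D_(i+1)`, the elements of `D_i` are products of powers of weight exactly `i`. -/
theorem dimSub_step [Finite B] (hB : IsPGroup p B) {i : ℕ} (hi1 : 1 ≤ i) {g : B}
    (hg : g ∈ dimSub p B i) : ∃ h ∈ Subgroup.closure (Pw p B i), h⁻¹ * g ∈ dimSub p B (i + 1) := by
  have hC : ∀ h ∈ Subgroup.closure (Pw p B i), dlt p B h ∈ Fil p B i := by
    intro h hh
    rw [← mem_dimSub]
    have h1 : Subgroup.closure (Pw p B i) ≤ dimSub p B i := by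
      rw [Subgroup.closure_le]
      intro x hx
      exact (mem_dimSub i x).mpr (Pw_mem hx)
    exact h1 hh
  have hii : Fil p B i * Fil p B i ≤ Fil p B (i + 1) := (Fil_mul i i).trans (Fil_le (by omega))
  have hadd : ∀ x y : B, dlt p B x ∈ Fil p B i → dlt p B y ∈ Fil p B i →
      dlt p B (x * y) - (dlt p B x + dlt p B y) ∈ Fil p B (i + 1) := by
    intro x y hx hy
    rw [dlt_mul]
    have := hii (Submodule.mul_mem_mul hx hy)
    simpa using this
  have key : ∀ a ∈ Submodule.span (ZMod p) (dlt p B '' Pw p B i),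
      ∃ h ∈ Subgroup.closure (Pw p B i), dlt p B h - a ∈ Fil p B (i + 1) := by
    intro a ha
    induction ha using Submodule.span_induction with
    | mem a ha =>
      obtain ⟨x, hx, rfl⟩ := ha
      exact ⟨x, Subgroup.subset_closure hx, by simp⟩
    | zero => exact ⟨1, Subgroup.one_mem _, by rw [dlt_one]; simp⟩
    | add a b _ _ iha ihb =>
      obtain ⟨x, hx, hxa⟩ := iha
      obtain ⟨y, hy, hyb⟩ := ihb
      refine ⟨x * y, Subgroup.mul_mem _ hx hy, ?_⟩
      have h1 := hadd x y (hC x hx) (hC y hy)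
      have h2 := Submodule.add_mem _ h1 (Submodule.add_mem _ hxa hyb)
      convert h2 using 1
      abel
    | smul c a _ iha =>
      obtain ⟨x, hx, hxa⟩ := iha
      have hpow : ∀ n : ℕ, dlt p B (x ^ n) - n • a ∈ Fil p B (i + 1) := by
        intro n
        induction n with
        | zero => rw [pow_zero, dlt_one]; simp
        | succ n ih =>
          have h1 := hadd (x ^ n) x (hC _ (Subgroup.pow_mem _ hx n)) (hC x hx)
          rw [← pow_succ] at h1
          have h2 := Submodule.add_mem _ h1 (Submodule.add_mem _ ih hxa)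
          convert h2 using 1
          rw [succ_nsmul]
          abel
      refine ⟨x ^ c.val, Subgroup.pow_mem _ hx _, ?_⟩
      have h1 := hpow c.val
      have h2 : c.val • a = c • a := by
        rw [← Nat.cast_smul_eq_nsmul (ZMod p), ZMod.natCast_zmod_val]
      rwa [h2] at h1
  obtain ⟨a, ha, b, hb, hab⟩ := Submodule.mem_sup.mp (dimSub_span hB hi1 hg)
  obtain ⟨h, hh, hha⟩ := key a ha
  refine ⟨h, hh, ?_⟩
  rw [mem_dimSub]
  have h1 : dlt p B (h⁻¹ * g) = MonoidAlgebra.of (ZMod p) B h⁻¹ * (dlt p B g - dlt p B h) := by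
    simp only [dlt, map_mul]
    have h2 : MonoidAlgebra.of (ZMod p) B h⁻¹ * MonoidAlgebra.of (ZMod p) B h = 1 := by
      rw [← map_mul, inv_mul_cancel, map_one]
    rw [mul_sub, mul_sub, mul_sub, h2]
    abel
  rw [h1]
  refine top_mul_Fil _ (Submodule.mul_mem_mul Submodule.mem_top ?_)
  have h2 : dlt p B g - dlt p B h = b - (dlt p B h - a) := by rw [← hab]; abel
  rw [h2]
  exact Submodule.sub_mem _ hb hha

/-- Lazard's description of the dimension subgroups. -/
theorem dimSub_eq_closure [Finite B] (hB : IsPGroup p B) {i : ℕ} (hi1 : 1 ≤ i) :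
    dimSub p B i = Subgroup.closure (PwGe p B i) := by
  obtain ⟨N, hN1, hEN, hN⟩ := exists_dimSub_bot (p := p) (B := B) hB
  apply le_antisymm
  · have key : ∀ n i, 1 ≤ i → N ≤ i + n → dimSub p B i ≤ Subgroup.closure (PwGe p B i) := by
      intro n
      induction n with
      | zero =>
        intro i hi hNi
        have h1 : dimSub p B i ≤ ⊥ := by rw [← hEN]; exact dimSub_anti (by omega)
        exact h1.trans bot_le
      | succ n ih =>
        intro i hi hNi g hg
        obtain ⟨h, hh, hhg⟩ := dimSub_step hB hi hg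
        have h1 := ih (i + 1) (by omega) (by omega) hhg
        have h2 : Subgroup.closure (PwGe p B (i + 1)) ≤ Subgroup.closure (PwGe p B i) := by
          apply Subgroup.closure_mono
          rintro _ ⟨j, s, x, hj, hx, his, rfl⟩
          exact ⟨j, s, x, hj, hx, by omega, rfl⟩
        have h3 : Subgroup.closure (Pw p B i) ≤ Subgroup.closure (PwGe p B i) := by
          apply Subgroup.closure_mono
          rintro _ ⟨j, s, x, hj, hx, his, rfl⟩
          exact ⟨j, s, x, hj, hx, by omega, rfl⟩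
        have h4 := Subgroup.mul_mem _ (h3 hh) (h2 h1)
        simpa using h4
    exact key N i hi1 (by omega)
  · rw [Subgroup.closure_le]
    exact PwGe_sub i

/-- the powers `x ^ p ^ s`, `x` in the `j`-th term, where `j` is at most the class -/
theorem dimSub_eq_closure_class [Finite B] (hB : IsPGroup p B) {k : ℕ} (hk : gam B (k + 1) = ⊥)
    {i : ℕ} (hi1 : 1 ≤ i) :
    dimSub p B i = Subgroup.closure {g | ∃ (j s : ℕ) (x : B), 1 ≤ j ∧ j ≤ k ∧ x ∈ gam B j ∧
      i ≤ j * p ^ s ∧ g = x ^ p ^ s} := by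
  rw [dimSub_eq_closure hB hi1]
  apply le_antisymm
  · rw [Subgroup.closure_le]
    rintro _ ⟨j, s, x, hj, hx, his, rfl⟩
    by_cases hjk : j ≤ k
    · exact Subgroup.subset_closure ⟨j, s, x, hj, hjk, hx, his, rfl⟩
    · have h4 : x ∈ gam B (k + 1) := Subgroup.lowerCentralSeries_antitone _ (by omega) hx
      rw [hk, Subgroup.mem_bot] at h4
      rw [h4, one_pow]
      exact Subgroup.one_mem _
  · apply Subgroup.closure_mono
    rintro _ ⟨j, s, x, hj, hjk, hx, his, rfl⟩
    exact ⟨j, s, x, hj, hx, his, rfl⟩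

end

end Pool.Agent.Helper60.RK
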