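import Pool.Agent.Helper43.RK.Defs2
import Pool.Agent.Helper60.RK.Star

/-!
# The extended series inside `P_j`
-/

set_option autoImplicit false
set_option linter.unusedSectionVars false

namespace Pool.Agent.Helper60.RK

open RKC2 (Cj PP)
open RK43 (QV QVFacts HH)
open Pool.Agent.Helper27.BE
open scoped commutatorElement

section
variable {p : ℕ} [hp : Fact p.Prime] {G : Type} [Group G]

theorem Z_eq_pw (e : ℕ) (R : Subgroup G) : Z p e R = RKP.pw (p ^ e) R := rfl

theorem HH_pos {k : ℕ} (hk : 1 ≤ k) (j : ℕ) : 1 ≤ HH p k j :=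
  Nat.mul_pos (pow_pos hp.out.pos j) hk

/-- the key commutator estimate -/
theorem key_comm [Finite G] (hG : IsPGroup p G) {P : Subgroup G} {j : ℕ} (hE : Emb p P j)
    {a w s : ℕ} (ha : dimSub p G a ≤ P) {x y : G} (hx : x ∈ Z p s (dimSub p G a))
    (hy : y ∈ dimSub p G w) : x⁻¹ * y⁻¹ * x * y ∈ Z p s (dimSub p G (a + w)) := by
  set R := dimSub p G (a + w) with hR
  have hRn : R.Normal := dimSub_normal _
  have hRP : R ≤ P := (dimSub_anti (Nat.le_add_right a w)).trans ha
  have hTn : (Z p s R).Normal := Z_normal p s R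
  have gen : ∀ g ∈ dimSub p G a, (g ^ p ^ s)⁻¹ * y⁻¹ * (g ^ p ^ s) * y ∈ Z p s R := by
    intro g hg
    set c := g⁻¹ * y⁻¹ * g * y with hc
    have hcR : c ∈ R := by
      have h1 := dimSub_comm (Subgroup.inv_mem _ hg) (Subgroup.inv_mem _ hy)
      rw [inv_inv, inv_inv] at h1
      exact h1
    have h1 : (g ^ p ^ s)⁻¹ * y⁻¹ * (g ^ p ^ s) * y = (g ^ p ^ s)⁻¹ * (g * c) ^ p ^ s := by
      have h2 : g * c = y⁻¹ * g * y⁻¹⁻¹ := by rw [hc]; group
      rw [h2, conj_pow]
      group
    rw [h1]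
    have h3 : g * c = (g * c * g⁻¹) * g := by group
    have h4 := hE.mul_pow_mod hG hRn hRP (hRn.conj_mem c hcR g) (ha hg) s
    rw [← h3] at h4
    have h5 : (g * c) ^ p ^ s * (g ^ p ^ s)⁻¹ ∈ Z p s R := by
      have h6 := Subgroup.mul_mem _ (pow_mem_Z (p := p) (e := s) (hRn.conj_mem c hcR g))
        (Z_anti (Nat.le_add_right s (j - 1)) R h4)
      rwa [mul_inv_cancel_left] at h6
    have h7 := hTn.conj_mem _ h5 (g ^ p ^ s)⁻¹
    have h8 : (g ^ p ^ s)⁻¹ * ((g * c) ^ p ^ s * (g ^ p ^ s)⁻¹) * (g ^ p ^ s)⁻¹⁻¹ =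
        (g ^ p ^ s)⁻¹ * (g * c) ^ p ^ s := by group
    rwa [h8] at h7
  rw [Z] at hx
  induction hx using Subgroup.closure_induction with
  | mem x hx =>
    obtain ⟨g, hg, rfl⟩ := hx
    exact gen g hg
  | one => simp [Subgroup.one_mem]
  | mul a b _ _ iha ihb =>
    have h1 : (a * b)⁻¹ * y⁻¹ * (a * b) * y =
        (b⁻¹ * (a⁻¹ * y⁻¹ * a * y) * b⁻¹⁻¹) * (b⁻¹ * y⁻¹ * b * y) := by group
    rw [h1]
    exact Subgroup.mul_mem _ (hTn.conj_mem _ iha _) ihb
  | inv a _ iha =>
    have h1 : a⁻¹⁻¹ * y⁻¹ * a⁻¹ * y = a * (a⁻¹ * y⁻¹ * a * y)⁻¹ * a⁻¹ := by group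
    rw [h1]
    exact hTn.conj_mem _ (Subgroup.inv_mem _ iha) _

end

/-- **the facts about the extended series** -/
theorem qvFacts (p : ℕ) [hp : Fact p.Prime] : QVFacts p := by
  intro G _ _ hG k hk1 hk j hj
  set H := HH p k j with hH
  have hH1 : 1 ≤ H := HH_pos hk1 j
  have hp2 := hp.out.two_le
  have hpH : 0 < p * H := Nat.mul_pos hp.out.pos hH1
  have hpH' : (p - 1) * H + H = p * H := by
    have : p - 1 + 1 = p := by omega
    calc (p - 1) * H + H = (p - 1 + 1) * H := by ring
      _ = p * H := by rw [this]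
  have hHle : H ≤ (p - 1) * H := Nat.le_mul_of_pos_left _ (by omega)
  have hE : Emb p (dimSub p G (p ^ j * k)) j := emb_dimSub hG hk1 hk hj
  have hHd : H = p ^ j * k := rfl
  have hpHd : p * H = p ^ (j + 1) * k := by rw [hHd, pow_succ]; ring
  have hQV : ∀ s i, i < p * H → QV p G k j (s * (p * H) + i) =
      Z p s (dimSub p G (H + min i ((p - 1) * H))) := by
    intro s i hi
    rw [Z_eq_pw]
    unfold RK43.QV
    rw [← hH]
    have h1 : (s * (p * H) + i) / (p * H) = s := by
      rw [mul_comm, Nat.mul_add_div hpH, Nat.div_eq_of_lt hi, add_zero]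
    have h2 : (s * (p * H) + i) % (p * H) = i := by
      rw [mul_comm, Nat.mul_add_mod, Nat.mod_eq_of_lt hi]
    rw [h1, h2]
  have hdec : ∀ u, ∃ s i, i < p * H ∧ u = s * (p * H) + i := fun u =>
    ⟨u / (p * H), u % (p * H), Nat.mod_lt _ hpH, by
      rw [mul_comm]; exact (Nat.div_add_mod u (p * H)).symm⟩
  -- `D_{pH}^[s] = D_H^[s+1]`
  have hstep : ∀ s, Z p s (dimSub p G (p * H)) = Z p (s + 1) (dimSub p G H) := by
    intro s
    apply le_antisymm
    · have h1 : dimSub p G (p * H) ≤ Z p 1 (dimSub p G H) := by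
        rw [hpHd]
        exact dimSub_add_le hG hk1 hk j 1
      refine (Z_mono h1).trans ?_
      rw [hE.Z_Z hG (dimSub_normal _) (by rw [hHd])]
    · refine (Z_add_le p s 1 _).trans (Z_mono ?_)
      rw [Z, Subgroup.closure_le]
      rintro _ ⟨r, hr, rfl⟩
      rw [pow_one]
      exact dimSub_pow_prime hr
  have hanti : Antitone (QV p G k j) := by
    refine antitone_nat_of_succ_le fun u => ?_
    obtain ⟨s, i, hi, rfl⟩ := hdec u
    rw [hQV s i hi]
    by_cases hi1 : i + 1 < p * H
    · rw [add_assoc, hQV s (i + 1) hi1]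
      refine Z_mono (dimSub_anti ?_)
      exact Nat.add_le_add_left (min_le_min_right _ (Nat.le_succ i)) _
    · have h1 : i + 1 = p * H := by omega
      have h2 : s * (p * H) + i + 1 = (s + 1) * (p * H) + 0 := by rw [add_assoc, h1]; ring
      rw [h2, hQV (s + 1) 0 hpH]
      have h3 : min i ((p - 1) * H) = (p - 1) * H := min_eq_right (by omega)
      have h4 : H + min i ((p - 1) * H) = p * H := by rw [h3]; omega
      have h5 : H + min 0 ((p - 1) * H) = H := by simp
      rw [h4, h5, hstep]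
  refine ⟨hanti, ?_, ?_, ?_, ?_⟩
  · intro u
    obtain ⟨s, i, hi, rfl⟩ := hdec u
    rw [hQV s i hi]
    exact Z_normal p s _
  · intro u hu
    have h1 : u < p * H := by omega
    have h2 := hQV 0 u h1
    rw [zero_mul, zero_add] at h2
    rw [h2, Z_zero, min_eq_left hu]
  · intro u
    obtain ⟨s, i, hi, rfl⟩ := hdec u
    have h1 : (s * (p * H) + i) / (p * H) = s := by
      rw [mul_comm, Nat.mul_add_div hpH, Nat.div_eq_of_lt hi, add_zero]
    have h2 : Z p s (dimSub p G (H + min i ((p - 1) * H))) ≤ PP p G k (j + s) := by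
      rw [Z, Subgroup.closure_le]
      rintro _ ⟨r, hr, rfl⟩
      have h3 := dimSub_pow_prime_pow (dimSub_anti (Nat.le_add_right _ _) hr : r ∈ dimSub p G H) s
      change r ^ p ^ s ∈ dimSub p G (p ^ (j + s) * k)
      have h4 : H * p ^ s = p ^ (j + s) * k := by rw [hHd, pow_add]; ring
      rwa [h4] at h3
    rw [hQV s i hi]
    rw [h1]
    exact h2
  · intro u w hw1 hwH x hx y hy
    obtain ⟨s, i, hi, rfl⟩ := hdec u
    rw [hQV s i hi] at hx
    by_cases hiw : i + w < p * H
    · rw [add_assoc, hQV s (i + w) hiw]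
      have h1 := key_comm hG hE (a := H + min i ((p - 1) * H))
        (dimSub_anti (by rw [hHd]; exact Nat.le_add_right _ _)) hx hy
      refine Z_mono (dimSub_anti ?_) h1
      rcases le_total i ((p - 1) * H) with h | h
      · rw [min_eq_left h]
        have := min_le_left (i + w) ((p - 1) * H)
        omega
      · rw [min_eq_right h]
        have := min_le_right (i + w) ((p - 1) * H)
        omega
    · have hi2 : (p - 1) * H < i := by omega
      have h1 : s * (p * H) + i + w = (s + 1) * (p * H) + (i + w - p * H) := by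
        have : (s + 1) * (p * H) = s * (p * H) + p * H := by ring
        omega
      rw [h1, hQV (s + 1) (i + w - p * H) (by omega)]
      have h2 : H + min i ((p - 1) * H) = p * H := by rw [min_eq_right hi2.le]; omega
      rw [h2, hstep] at hx
      have h3 := key_comm hG hE (a := H) (by rw [hHd]) hx hy
      refine Z_mono (dimSub_anti ?_) h3
      have := min_le_left (i + w - p * H) ((p - 1) * H)
      omega

end Pool.Agent.Helper60.RK
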